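import Pool.Agent.helper27.CHS.Spec

/-!
Row chs:PA (MP_5628fe_nt, project chs): basic facts on `PB`, `V`, `sig`.
-/

set_option autoImplicit false

open Finset

namespace Pool.Agent.CHS

open Pool.Agent.SX

theorem PA_mem (x y : ℝ) (p : ℕ) : p ∈ PB x y ↔ p.Prime ∧ x ≤ Real.log p ∧ Real.log p < y := by
  unfold PB
  rw [mem_filter, mem_range]
  constructor
  · exact fun h => h.2
  · intro h
    refine ⟨?_, h⟩
    have hp : (0 : ℝ) < p := by exact_mod_cast h.1.pos
    have h1 : (p : ℝ) < Real.exp y := (Real.log_lt_iff_lt_exp hp).1 h.2.2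
    exact_mod_cast lt_of_lt_of_le h1 (Nat.le_ceil (Real.exp y))

theorem PA_union (x h h' : ℝ) (h1 : x ≤ h) (h2 : h ≤ h') : PB x h' = PB x h ∪ PB h h' := by
  ext p
  rw [mem_union, PA_mem, PA_mem, PA_mem]
  constructor
  · rintro ⟨a, b, c⟩
    rcases lt_or_ge (Real.log p) h with hc | hc
    · exact Or.inl ⟨a, b, hc⟩
    · exact Or.inr ⟨a, hc, c⟩
  · rintro (⟨a, b, c⟩ | ⟨a, b, c⟩)
    · exact ⟨a, b, lt_of_lt_of_le c h2⟩
    · exact ⟨a, h1.trans b, c⟩

theorem PA_disj (x h h' : ℝ) : Disjoint (PB x h) (PB h h') := by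
  rw [disjoint_left]
  intro p hp hp'
  rw [PA_mem] at hp hp'
  linarith [hp.2.2, hp'.2.1]

theorem PA_big (x y : ℝ) (hx : 2 ≤ x) (p : ℕ) (hp : p ∈ PB x y) : 8 ≤ p := by
  rw [PA_mem] at hp
  by_contra hlt
  push Not at hlt
  have hp0 : (0 : ℝ) < p := by exact_mod_cast hp.1.pos
  have h1 : Real.exp 2 ≤ p := by
    rw [← Real.le_log_iff_exp_le hp0]
    linarith [hp.2.1]
  have h2 : (2.7182818283 : ℝ) < Real.exp 1 := Real.exp_one_gt_d9
  have h3 : Real.exp 2 = Real.exp 1 * Real.exp 1 := by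
    rw [← Real.exp_add]; norm_num
  have h4 : (7 : ℝ) < Real.exp 2 := by
    rw [h3]; nlinarith
  have h5 : (p : ℝ) ≤ 7 := by exact_mod_cast (show p ≤ 7 by omega)
  linarith

theorem PA_fac (x y : ℝ) (hx : 2 ≤ x) (p : ℕ) (hp : p ∈ PB x y) :
    0 < 1 / ((p : ℝ) - 1) ∧ 1 / ((p : ℝ) - 1) ≤ 1 / 7 := by
  have h8 : (8 : ℝ) ≤ p := by exact_mod_cast PA_big x y hx p hp
  constructor
  · apply one_div_pos.2; linarith
  · apply one_div_le_one_div_of_le (by norm_num); linarith

theorem PA : PA_stmt := by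
  refine ⟨PA_mem, ?_, ?_, ?_⟩
  · intro x h h' h1 h2
    have hu := PA_union x h h' h1 h2
    have hd := PA_disj x h h'
    refine ⟨hu, hd, ?_, ?_⟩
    · unfold V
      rw [hu, prod_union hd]
    · unfold sig
      rw [hu, sum_union hd]
  · intro x y hx
    refine ⟨?_, ?_, ?_, ?_⟩
    · unfold V
      apply prod_pos
      intro p hp
      have := (PA_fac x y hx p hp).2
      linarith
    · unfold V
      apply prod_le_one
      · intro p hp
        have := (PA_fac x y hx p hp).2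
        linarith
      · intro p hp
        have := (PA_fac x y hx p hp).1
        linarith
    · unfold sig
      apply sum_nonneg
      intro p hp
      exact (PA_fac x y hx p hp).1.le
    · intro p hp
      exact ⟨PA_big x y hx p hp, (PA_fac x y hx p hp).1, (PA_fac x y hx p hp).2⟩
  · intro x
    rw [eq_empty_iff_forall_notMem]
    intro p hp
    rw [PA_mem] at hp
    linarith [hp.2.1, hp.2.2]

end Pool.Agent.CHS
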